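import Pool.Agent.MTR.ZFI
import Pool.Agent.MTC.S0b.B0
import Pool.Agent.MTC.S0b.B1
import Pool.Agent.MTC.S0b.B2
import Pool.Agent.MTC.S0b.B3
import Pool.Agent.MTC.S0b.B4
import Pool.Agent.MTC.S0b.B5
import Pool.Agent.MTC.S0b.B6
import Pool.Agent.MTC.S0b.B7
import Pool.Agent.MTC.S0b.B8
import Pool.Agent.MTC.S0b.B9
import Pool.Agent.MTC.S0b.B10
import Pool.Agent.MTC.S0b.B11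
import Pool.Agent.MTC.S0b.B12
import Pool.Agent.MTC.S0b.B13
import Pool.Agent.MTC.S0b.B14
import Pool.Agent.MTC.S0b.B15
import Pool.Agent.MTC.S0b.B16
import Pool.Agent.MTC.S0b.S
set_option autoImplicit false
set_option maxRecDepth 100000
open MeasureTheory Set Metric Pool.Agent.MEIS Pool.Agent.MSQ Pool.Agent.MGE Pool.Agent.MGF Pool.Agent.PKD Pool.Agent.MTR
namespace Pool.Agent.MTC.S0b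
theorem ev : (evenL F.f0 && evenL F.f1 && oddL F.f2 && evenL F.f3 && evenL F.f4 && evenL F.f5 && oddL F.f6) = true := by decide +kernel
/-- boxes -/
def L0 : List Bn := [⟨2, 3, 0, 1, 8⟩, ⟨2, 3, 1, 2, 8⟩, ⟨2, 3, 2, 3, 8⟩, ⟨2, 3, 3, 4, 8⟩, ⟨2, 3, 5, 6, 8⟩, ⟨2, 3, 6, 7, 8⟩, ⟨2, 3, 7, 8, 8⟩, ⟨3, 4, 1, 2, 8⟩, ⟨3, 4, 2, 3, 8⟩, ⟨3, 4, 4, 5, 8⟩, ⟨3, 4, 3, 4, 8⟩, ⟨3, 4, 5, 6, 8⟩, ⟨3, 4, 6, 7, 8⟩, ⟨3, 4, 7, 8, 8⟩, ⟨4, 5, 1, 2, 8⟩, ⟨4, 5, 2, 3, 8⟩, ⟨4, 5, 3, 4, 8⟩, ⟨4, 5, 4, 5, 8⟩, ⟨4, 5, 6, 7, 8⟩, ⟨4, 5, 5, 6, 8⟩]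
theorem hL0 : ∀ b ∈ L0, BoxOK 3 1000 6 1000 g false 6914 false b := by
  simp only [L0, List.forall_mem_cons, List.not_mem_nil, false_imp_iff, implies_true, and_true]
  exact ⟨⟨b0, _, rfl, rc8, h0⟩,
    ⟨b1, _, rfl, rc8, h1⟩,
    ⟨b2, _, rfl, rc8, h2⟩,
    ⟨b3, _, rfl, rc8, h3⟩,
    ⟨b4, _, rfl, rc8, h4⟩,
    ⟨b5, _, rfl, rc8, h5⟩,
    ⟨b6, _, rfl, rc8, h6⟩,
    ⟨b7, _, rfl, rc8, h7⟩,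
    ⟨b8, _, rfl, rc8, h8⟩,
    ⟨b9, _, rfl, rc8, h9⟩,
    ⟨b10, _, rfl, rc8, h10⟩,
    ⟨b11, _, rfl, rc8, h11⟩,
    ⟨b12, _, rfl, rc8, h12⟩,
    ⟨b13, _, rfl, rc8, h13⟩,
    ⟨b14, _, rfl, rc8, h14⟩,
    ⟨b15, _, rfl, rc8, h15⟩,
    ⟨b16, _, rfl, rc8, h16⟩,
    ⟨b17, _, rfl, rc8, h17⟩,
    ⟨b18, _, rfl, rc8, h18⟩,
    ⟨b19, _, rfl, rc8, h19⟩⟩
/-- boxes -/
def L1 : List Bn := [⟨4, 5, 7, 8, 8⟩, ⟨5, 6, 3, 4, 8⟩, ⟨5, 6, 4, 5, 8⟩, ⟨5, 6, 5, 6, 8⟩, ⟨5, 6, 6, 7, 8⟩, ⟨5, 6, 7, 8, 8⟩, ⟨6, 7, 2, 3, 8⟩, ⟨6, 7, 3, 4, 8⟩, ⟨6, 7, 4, 5, 8⟩, ⟨6, 7, 5, 6, 8⟩, ⟨6, 7, 6, 7, 8⟩, ⟨6, 7, 7, 8, 8⟩, ⟨6, 7, 0, 1, 8⟩, ⟨0, 1, 16, 20, 32⟩, ⟨0, 1, 20, 24, 32⟩, ⟨3, 4, 3, 4, 16⟩, ⟨3, 4, 2, 3, 16⟩, ⟨2, 3, 2, 3, 16⟩, ⟨2, 3, 3, 4, 16⟩, ⟨2, 3, 0, 1, 16⟩]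
theorem hL1 : ∀ b ∈ L1, BoxOK 3 1000 6 1000 g false 6914 false b := by
  simp only [L1, List.forall_mem_cons, List.not_mem_nil, false_imp_iff, implies_true, and_true]
  exact ⟨⟨b20, _, rfl, rc8, h20⟩,
    ⟨b21, _, rfl, rc8, h21⟩,
    ⟨b22, _, rfl, rc8, h22⟩,
    ⟨b23, _, rfl, rc8, h23⟩,
    ⟨b24, _, rfl, rc8, h24⟩,
    ⟨b25, _, rfl, rc8, h25⟩,
    ⟨b26, _, rfl, rc8, h26⟩,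
    ⟨b27, _, rfl, rc8, h27⟩,
    ⟨b28, _, rfl, rc8, h28⟩,
    ⟨b29, _, rfl, rc8, h29⟩,
    ⟨b30, _, rfl, rc8, h30⟩,
    ⟨b31, _, rfl, rc8, h31⟩,
    ⟨b32, _, rfl, rc8, h32⟩,
    ⟨b33, _, rfl, rc32, h33⟩,
    ⟨b34, _, rfl, rc32, h34⟩,
    ⟨b35, _, rfl, rc16, h35⟩,
    ⟨b36, _, rfl, rc16, h36⟩,
    ⟨b37, _, rfl, rc16, h37⟩,
    ⟨b38, _, rfl, rc16, h38⟩,
    ⟨b39, _, rfl, rc16, h39⟩⟩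
/-- boxes -/
def L2 : List Bn := [⟨3, 4, 1, 2, 16⟩, ⟨3, 4, 0, 1, 16⟩, ⟨2, 3, 1, 2, 16⟩, ⟨2, 3, 4, 5, 16⟩, ⟨2, 3, 5, 6, 16⟩, ⟨2, 3, 6, 7, 16⟩, ⟨2, 3, 7, 8, 16⟩, ⟨2, 3, 8, 9, 16⟩, ⟨2, 3, 9, 10, 16⟩, ⟨3, 4, 12, 13, 16⟩, ⟨3, 4, 13, 14, 16⟩, ⟨3, 4, 10, 11, 16⟩, ⟨3, 4, 11, 12, 16⟩, ⟨3, 4, 14, 15, 16⟩, ⟨4, 5, 8, 9, 16⟩, ⟨4, 5, 9, 10, 16⟩, ⟨5, 6, 8, 9, 16⟩, ⟨5, 6, 9, 10, 16⟩, ⟨6, 7, 0, 1, 16⟩, ⟨6, 7, 1, 2, 16⟩]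
theorem hL2 : ∀ b ∈ L2, BoxOK 3 1000 6 1000 g false 6914 false b := by
  simp only [L2, List.forall_mem_cons, List.not_mem_nil, false_imp_iff, implies_true, and_true]
  exact ⟨⟨b40, _, rfl, rc16, h40⟩,
    ⟨b41, _, rfl, rc16, h41⟩,
    ⟨b42, _, rfl, rc16, h42⟩,
    ⟨b43, _, rfl, rc16, h43⟩,
    ⟨b44, _, rfl, rc16, h44⟩,
    ⟨b45, _, rfl, rc16, h45⟩,
    ⟨b46, _, rfl, rc16, h46⟩,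
    ⟨b47, _, rfl, rc16, h47⟩,
    ⟨b48, _, rfl, rc16, h48⟩,
    ⟨b49, _, rfl, rc16, h49⟩,
    ⟨b50, _, rfl, rc16, h50⟩,
    ⟨b51, _, rfl, rc16, h51⟩,
    ⟨b52, _, rfl, rc16, h52⟩,
    ⟨b53, _, rfl, rc16, h53⟩,
    ⟨b54, _, rfl, rc16, h54⟩,
    ⟨b55, _, rfl, rc16, h55⟩,
    ⟨b56, _, rfl, rc16, h56⟩,
    ⟨b57, _, rfl, rc16, h57⟩,
    ⟨b58, _, rfl, rc16, h58⟩,
    ⟨b59, _, rfl, rc16, h59⟩⟩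
/-- boxes -/
def L3 : List Bn := [⟨7, 8, 0, 1, 16⟩, ⟨7, 8, 1, 2, 16⟩, ⟨10, 11, 4, 5, 16⟩, ⟨10, 11, 5, 6, 16⟩, ⟨11, 12, 4, 5, 16⟩, ⟨11, 12, 5, 6, 16⟩, ⟨8, 9, 1, 2, 16⟩, ⟨8, 9, 0, 1, 16⟩, ⟨9, 10, 0, 1, 16⟩, ⟨12, 13, 3, 4, 16⟩, ⟨13, 14, 2, 3, 16⟩, ⟨13, 14, 3, 4, 16⟩, ⟨12, 13, 2, 3, 16⟩, ⟨9, 10, 1, 2, 16⟩, ⟨10, 11, 2, 3, 16⟩, ⟨11, 12, 3, 4, 16⟩, ⟨11, 12, 2, 3, 16⟩, ⟨10, 11, 3, 4, 16⟩, ⟨15, 16, 1, 2, 16⟩, ⟨14, 15, 0, 1, 16⟩]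
theorem hL3 : ∀ b ∈ L3, BoxOK 3 1000 6 1000 g false 6914 false b := by
  simp only [L3, List.forall_mem_cons, List.not_mem_nil, false_imp_iff, implies_true, and_true]
  exact ⟨⟨b60, _, rfl, rc16, h60⟩,
    ⟨b61, _, rfl, rc16, h61⟩,
    ⟨b62, _, rfl, rc16, h62⟩,
    ⟨b63, _, rfl, rc16, h63⟩,
    ⟨b64, _, rfl, rc16, h64⟩,
    ⟨b65, _, rfl, rc16, h65⟩,
    ⟨b66, _, rfl, rc16, h66⟩,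
    ⟨b67, _, rfl, rc16, h67⟩,
    ⟨b68, _, rfl, rc16, h68⟩,
    ⟨b69, _, rfl, rc16, h69⟩,
    ⟨b70, _, rfl, rc16, h70⟩,
    ⟨b71, _, rfl, rc16, h71⟩,
    ⟨b72, _, rfl, rc16, h72⟩,
    ⟨b73, _, rfl, rc16, h73⟩,
    ⟨b74, _, rfl, rc16, h74⟩,
    ⟨b75, _, rfl, rc16, h75⟩,
    ⟨b76, _, rfl, rc16, h76⟩,
    ⟨b77, _, rfl, rc16, h77⟩,
    ⟨b78, _, rfl, rc16, h78⟩,
    ⟨b79, _, rfl, rc16, h79⟩⟩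
/-- boxes -/
def L4 : List Bn := [⟨14, 15, 2, 3, 16⟩, ⟨14, 15, 3, 4, 16⟩, ⟨14, 15, 1, 2, 16⟩, ⟨15, 16, 3, 4, 16⟩, ⟨10, 11, 0, 1, 16⟩, ⟨15, 16, 2, 3, 16⟩, ⟨11, 12, 0, 1, 16⟩, ⟨10, 11, 1, 2, 16⟩, ⟨14, 15, 10, 11, 16⟩, ⟨11, 12, 1, 2, 16⟩, ⟨14, 15, 11, 12, 16⟩, ⟨15, 16, 0, 1, 16⟩, ⟨14, 15, 8, 9, 16⟩, ⟨14, 15, 9, 10, 16⟩, ⟨15, 16, 8, 9, 16⟩, ⟨15, 16, 10, 11, 16⟩, ⟨14, 15, 4, 5, 16⟩, ⟨14, 15, 5, 6, 16⟩, ⟨15, 16, 4, 5, 16⟩, ⟨15, 16, 5, 6, 16⟩]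
theorem hL4 : ∀ b ∈ L4, BoxOK 3 1000 6 1000 g false 6914 false b := by
  simp only [L4, List.forall_mem_cons, List.not_mem_nil, false_imp_iff, implies_true, and_true]
  exact ⟨⟨b80, _, rfl, rc16, h80⟩,
    ⟨b81, _, rfl, rc16, h81⟩,
    ⟨b82, _, rfl, rc16, h82⟩,
    ⟨b83, _, rfl, rc16, h83⟩,
    ⟨b84, _, rfl, rc16, h84⟩,
    ⟨b85, _, rfl, rc16, h85⟩,
    ⟨b86, _, rfl, rc16, h86⟩,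
    ⟨b87, _, rfl, rc16, h87⟩,
    ⟨b88, _, rfl, rc16, h88⟩,
    ⟨b89, _, rfl, rc16, h89⟩,
    ⟨b90, _, rfl, rc16, h90⟩,
    ⟨b91, _, rfl, rc16, h91⟩,
    ⟨b92, _, rfl, rc16, h92⟩,
    ⟨b93, _, rfl, rc16, h93⟩,
    ⟨b94, _, rfl, rc16, h94⟩,
    ⟨b95, _, rfl, rc16, h95⟩,
    ⟨b96, _, rfl, rc16, h96⟩,
    ⟨b97, _, rfl, rc16, h97⟩,
    ⟨b98, _, rfl, rc16, h98⟩,
    ⟨b99, _, rfl, rc16, h99⟩⟩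
/-- boxes -/
def L5 : List Bn := [⟨15, 16, 9, 10, 16⟩, ⟨14, 15, 6, 7, 16⟩, ⟨14, 15, 7, 8, 16⟩, ⟨15, 16, 6, 7, 16⟩, ⟨15, 16, 7, 8, 16⟩, ⟨14, 15, 12, 13, 16⟩, ⟨14, 15, 13, 14, 16⟩, ⟨0, 1, 0, 4, 64⟩, ⟨15, 16, 13, 14, 16⟩, ⟨0, 1, 4, 8, 64⟩, ⟨0, 1, 8, 12, 64⟩, ⟨14, 15, 14, 15, 16⟩, ⟨14, 15, 15, 16, 16⟩, ⟨15, 16, 14, 15, 16⟩, ⟨0, 1, 12, 16, 64⟩, ⟨0, 1, 16, 20, 64⟩, ⟨0, 1, 20, 24, 64⟩, ⟨0, 1, 24, 28, 64⟩, ⟨0, 1, 28, 32, 64⟩, ⟨1, 2, 28, 32, 64⟩]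
theorem hL5 : ∀ b ∈ L5, BoxOK 3 1000 6 1000 g false 6914 false b := by
  simp only [L5, List.forall_mem_cons, List.not_mem_nil, false_imp_iff, implies_true, and_true]
  exact ⟨⟨b100, _, rfl, rc16, h100⟩,
    ⟨b101, _, rfl, rc16, h101⟩,
    ⟨b102, _, rfl, rc16, h102⟩,
    ⟨b103, _, rfl, rc16, h103⟩,
    ⟨b104, _, rfl, rc16, h104⟩,
    ⟨b105, _, rfl, rc16, h105⟩,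
    ⟨b106, _, rfl, rc16, h106⟩,
    ⟨b107, _, rfl, rc64, h107⟩,
    ⟨b108, _, rfl, rc16, h108⟩,
    ⟨b109, _, rfl, rc64, h109⟩,
    ⟨b110, _, rfl, rc64, h110⟩,
    ⟨b111, _, rfl, rc16, h111⟩,
    ⟨b112, _, rfl, rc16, h112⟩,
    ⟨b113, _, rfl, rc16, h113⟩,
    ⟨b114, _, rfl, rc64, h114⟩,
    ⟨b115, _, rfl, rc64, h115⟩,
    ⟨b116, _, rfl, rc64, h116⟩,
    ⟨b117, _, rfl, rc64, h117⟩,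
    ⟨b118, _, rfl, rc64, h118⟩,
    ⟨b119, _, rfl, rc64, h119⟩⟩
/-- boxes -/
def L6 : List Bn := [⟨0, 1, 56, 60, 64⟩, ⟨0, 1, 60, 64, 64⟩, ⟨0, 1, 48, 52, 64⟩, ⟨0, 1, 52, 56, 64⟩, ⟨1, 2, 48, 52, 64⟩, ⟨3, 4, 8, 10, 32⟩, ⟨3, 4, 10, 12, 32⟩, ⟨3, 4, 2, 4, 32⟩, ⟨3, 4, 0, 2, 32⟩, ⟨3, 4, 6, 8, 32⟩, ⟨3, 4, 4, 6, 32⟩, ⟨3, 4, 12, 14, 32⟩, ⟨3, 4, 14, 16, 32⟩, ⟨3, 4, 26, 28, 32⟩, ⟨3, 4, 16, 18, 32⟩, ⟨3, 4, 18, 20, 32⟩, ⟨3, 4, 20, 22, 32⟩, ⟨3, 4, 22, 24, 32⟩, ⟨3, 4, 28, 30, 32⟩, ⟨3, 4, 30, 32, 32⟩]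
theorem hL6 : ∀ b ∈ L6, BoxOK 3 1000 6 1000 g false 6914 false b := by
  simp only [L6, List.forall_mem_cons, List.not_mem_nil, false_imp_iff, implies_true, and_true]
  exact ⟨⟨b120, _, rfl, rc64, h120⟩,
    ⟨b121, _, rfl, rc64, h121⟩,
    ⟨b122, _, rfl, rc64, h122⟩,
    ⟨b123, _, rfl, rc64, h123⟩,
    ⟨b124, _, rfl, rc64, h124⟩,
    ⟨b125, _, rfl, rc32, h125⟩,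
    ⟨b126, _, rfl, rc32, h126⟩,
    ⟨b127, _, rfl, rc32, h127⟩,
    ⟨b128, _, rfl, rc32, h128⟩,
    ⟨b129, _, rfl, rc32, h129⟩,
    ⟨b130, _, rfl, rc32, h130⟩,
    ⟨b131, _, rfl, rc32, h131⟩,
    ⟨b132, _, rfl, rc32, h132⟩,
    ⟨b133, _, rfl, rc32, h133⟩,
    ⟨b134, _, rfl, rc32, h134⟩,
    ⟨b135, _, rfl, rc32, h135⟩,
    ⟨b136, _, rfl, rc32, h136⟩,
    ⟨b137, _, rfl, rc32, h137⟩,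
    ⟨b138, _, rfl, rc32, h138⟩,
    ⟨b139, _, rfl, rc32, h139⟩⟩
/-- boxes -/
def L7 : List Bn := [⟨7, 8, 11, 12, 32⟩, ⟨7, 8, 10, 11, 32⟩, ⟨6, 7, 10, 11, 32⟩, ⟨6, 7, 11, 12, 32⟩, ⟨6, 7, 8, 9, 32⟩, ⟨7, 8, 8, 9, 32⟩, ⟨6, 7, 9, 10, 32⟩, ⟨7, 8, 9, 10, 32⟩, ⟨7, 8, 14, 15, 32⟩, ⟨7, 8, 15, 16, 32⟩, ⟨6, 7, 14, 15, 32⟩, ⟨6, 7, 15, 16, 32⟩, ⟨6, 7, 12, 13, 32⟩, ⟨6, 7, 13, 14, 32⟩, ⟨7, 8, 12, 13, 32⟩, ⟨7, 8, 13, 14, 32⟩, ⟨6, 7, 16, 17, 32⟩, ⟨6, 7, 17, 18, 32⟩, ⟨7, 8, 16, 17, 32⟩, ⟨7, 8, 17, 18, 32⟩]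
theorem hL7 : ∀ b ∈ L7, BoxOK 3 1000 6 1000 g false 6914 false b := by
  simp only [L7, List.forall_mem_cons, List.not_mem_nil, false_imp_iff, implies_true, and_true]
  exact ⟨⟨b140, _, rfl, rc32, h140⟩,
    ⟨b141, _, rfl, rc32, h141⟩,
    ⟨b142, _, rfl, rc32, h142⟩,
    ⟨b143, _, rfl, rc32, h143⟩,
    ⟨b144, _, rfl, rc32, h144⟩,
    ⟨b145, _, rfl, rc32, h145⟩,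
    ⟨b146, _, rfl, rc32, h146⟩,
    ⟨b147, _, rfl, rc32, h147⟩,
    ⟨b148, _, rfl, rc32, h148⟩,
    ⟨b149, _, rfl, rc32, h149⟩,
    ⟨b150, _, rfl, rc32, h150⟩,
    ⟨b151, _, rfl, rc32, h151⟩,
    ⟨b152, _, rfl, rc32, h152⟩,
    ⟨b153, _, rfl, rc32, h153⟩,
    ⟨b154, _, rfl, rc32, h154⟩,
    ⟨b155, _, rfl, rc32, h155⟩,
    ⟨b156, _, rfl, rc32, h156⟩,
    ⟨b157, _, rfl, rc32, h157⟩,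
    ⟨b158, _, rfl, rc32, h158⟩,
    ⟨b159, _, rfl, rc32, h159⟩⟩
/-- boxes -/
def L8 : List Bn := [⟨6, 7, 18, 19, 32⟩, ⟨6, 7, 19, 20, 32⟩, ⟨7, 8, 18, 19, 32⟩, ⟨7, 8, 19, 20, 32⟩, ⟨4, 5, 26, 27, 32⟩, ⟨5, 6, 27, 28, 32⟩, ⟨5, 6, 26, 27, 32⟩, ⟨4, 5, 27, 28, 32⟩, ⟨5, 6, 25, 26, 32⟩, ⟨5, 6, 24, 25, 32⟩, ⟨4, 5, 25, 26, 32⟩, ⟨4, 5, 24, 25, 32⟩, ⟨5, 6, 20, 21, 32⟩, ⟨4, 5, 20, 21, 32⟩, ⟨5, 6, 21, 22, 32⟩, ⟨4, 5, 21, 22, 32⟩, ⟨5, 6, 22, 23, 32⟩, ⟨4, 5, 22, 23, 32⟩, ⟨4, 5, 23, 24, 32⟩, ⟨5, 6, 23, 24, 32⟩]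
theorem hL8 : ∀ b ∈ L8, BoxOK 3 1000 6 1000 g false 6914 false b := by
  simp only [L8, List.forall_mem_cons, List.not_mem_nil, false_imp_iff, implies_true, and_true]
  exact ⟨⟨b160, _, rfl, rc32, h160⟩,
    ⟨b161, _, rfl, rc32, h161⟩,
    ⟨b162, _, rfl, rc32, h162⟩,
    ⟨b163, _, rfl, rc32, h163⟩,
    ⟨b164, _, rfl, rc32, h164⟩,
    ⟨b165, _, rfl, rc32, h165⟩,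
    ⟨b166, _, rfl, rc32, h166⟩,
    ⟨b167, _, rfl, rc32, h167⟩,
    ⟨b168, _, rfl, rc32, h168⟩,
    ⟨b169, _, rfl, rc32, h169⟩,
    ⟨b170, _, rfl, rc32, h170⟩,
    ⟨b171, _, rfl, rc32, h171⟩,
    ⟨b172, _, rfl, rc32, h172⟩,
    ⟨b173, _, rfl, rc32, h173⟩,
    ⟨b174, _, rfl, rc32, h174⟩,
    ⟨b175, _, rfl, rc32, h175⟩,
    ⟨b176, _, rfl, rc32, h176⟩,
    ⟨b177, _, rfl, rc32, h177⟩,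
    ⟨b178, _, rfl, rc32, h178⟩,
    ⟨b179, _, rfl, rc32, h179⟩⟩
/-- boxes -/
def L9 : List Bn := [⟨6, 7, 30, 31, 32⟩, ⟨7, 8, 30, 31, 32⟩, ⟨7, 8, 31, 32, 32⟩, ⟨4, 5, 28, 29, 32⟩, ⟨6, 7, 31, 32, 32⟩, ⟨4, 5, 29, 30, 32⟩, ⟨5, 6, 28, 29, 32⟩, ⟨4, 5, 30, 31, 32⟩, ⟨5, 6, 29, 30, 32⟩, ⟨30, 31, 22, 23, 32⟩, ⟨4, 5, 31, 32, 32⟩, ⟨30, 31, 23, 24, 32⟩, ⟨31, 32, 22, 23, 32⟩, ⟨5, 6, 30, 31, 32⟩, ⟨31, 32, 23, 24, 32⟩, ⟨5, 6, 31, 32, 32⟩, ⟨2, 3, 0, 4, 128⟩, ⟨2, 3, 4, 8, 128⟩, ⟨30, 31, 24, 25, 32⟩, ⟨30, 31, 25, 26, 32⟩]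
theorem hL9 : ∀ b ∈ L9, BoxOK 3 1000 6 1000 g false 6914 false b := by
  simp only [L9, List.forall_mem_cons, List.not_mem_nil, false_imp_iff, implies_true, and_true]
  exact ⟨⟨b180, _, rfl, rc32, h180⟩,
    ⟨b181, _, rfl, rc32, h181⟩,
    ⟨b182, _, rfl, rc32, h182⟩,
    ⟨b183, _, rfl, rc32, h183⟩,
    ⟨b184, _, rfl, rc32, h184⟩,
    ⟨b185, _, rfl, rc32, h185⟩,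
    ⟨b186, _, rfl, rc32, h186⟩,
    ⟨b187, _, rfl, rc32, h187⟩,
    ⟨b188, _, rfl, rc32, h188⟩,
    ⟨b189, _, rfl, rc32, h189⟩,
    ⟨b190, _, rfl, rc32, h190⟩,
    ⟨b191, _, rfl, rc32, h191⟩,
    ⟨b192, _, rfl, rc32, h192⟩,
    ⟨b193, _, rfl, rc32, h193⟩,
    ⟨b194, _, rfl, rc32, h194⟩,
    ⟨b195, _, rfl, rc32, h195⟩,
    ⟨b196, _, rfl, rc128, h196⟩,
    ⟨b197, _, rfl, rc128, h197⟩,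
    ⟨b198, _, rfl, rc32, h198⟩,
    ⟨b199, _, rfl, rc32, h199⟩⟩
/-- boxes -/
def L10 : List Bn := [⟨31, 32, 24, 25, 32⟩, ⟨31, 32, 25, 26, 32⟩, ⟨2, 3, 8, 12, 128⟩, ⟨2, 3, 12, 16, 128⟩, ⟨2, 3, 16, 20, 128⟩, ⟨2, 3, 20, 24, 128⟩, ⟨2, 3, 28, 32, 128⟩, ⟨2, 3, 24, 28, 128⟩, ⟨30, 31, 31, 32, 32⟩, ⟨30, 31, 30, 31, 32⟩, ⟨31, 32, 31, 32, 32⟩, ⟨31, 32, 30, 31, 32⟩, ⟨2, 3, 32, 36, 128⟩, ⟨2, 3, 36, 40, 128⟩, ⟨2, 3, 40, 44, 128⟩, ⟨2, 3, 44, 48, 128⟩, ⟨2, 3, 48, 52, 128⟩, ⟨2, 3, 52, 56, 128⟩, ⟨3, 4, 52, 56, 128⟩, ⟨2, 3, 120, 124, 128⟩]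
theorem hL10 : ∀ b ∈ L10, BoxOK 3 1000 6 1000 g false 6914 false b := by
  simp only [L10, List.forall_mem_cons, List.not_mem_nil, false_imp_iff, implies_true, and_true]
  exact ⟨⟨b200, _, rfl, rc32, h200⟩,
    ⟨b201, _, rfl, rc32, h201⟩,
    ⟨b202, _, rfl, rc128, h202⟩,
    ⟨b203, _, rfl, rc128, h203⟩,
    ⟨b204, _, rfl, rc128, h204⟩,
    ⟨b205, _, rfl, rc128, h205⟩,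
    ⟨b206, _, rfl, rc128, h206⟩,
    ⟨b207, _, rfl, rc128, h207⟩,
    ⟨b208, _, rfl, rc32, h208⟩,
    ⟨b209, _, rfl, rc32, h209⟩,
    ⟨b210, _, rfl, rc32, h210⟩,
    ⟨b211, _, rfl, rc32, h211⟩,
    ⟨b212, _, rfl, rc128, h212⟩,
    ⟨b213, _, rfl, rc128, h213⟩,
    ⟨b214, _, rfl, rc128, h214⟩,
    ⟨b215, _, rfl, rc128, h215⟩,
    ⟨b216, _, rfl, rc128, h216⟩,
    ⟨b217, _, rfl, rc128, h217⟩,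
    ⟨b218, _, rfl, rc128, h218⟩,
    ⟨b219, _, rfl, rc128, h219⟩⟩
/-- boxes -/
def L11 : List Bn := [⟨2, 3, 124, 128, 128⟩, ⟨2, 3, 112, 116, 128⟩, ⟨2, 3, 116, 120, 128⟩, ⟨5, 6, 16, 18, 64⟩, ⟨5, 6, 18, 20, 64⟩, ⟨5, 6, 22, 24, 64⟩, ⟨5, 6, 20, 22, 64⟩, ⟨2, 3, 104, 108, 128⟩, ⟨3, 4, 104, 108, 128⟩, ⟨2, 3, 108, 112, 128⟩, ⟨5, 6, 0, 2, 64⟩, ⟨5, 6, 2, 4, 64⟩, ⟨5, 6, 4, 6, 64⟩, ⟨5, 6, 6, 8, 64⟩, ⟨5, 6, 8, 10, 64⟩, ⟨5, 6, 10, 12, 64⟩, ⟨5, 6, 12, 14, 64⟩, ⟨5, 6, 14, 16, 64⟩, ⟨5, 6, 24, 26, 64⟩, ⟨5, 6, 26, 28, 64⟩]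
theorem hL11 : ∀ b ∈ L11, BoxOK 3 1000 6 1000 g false 6914 false b := by
  simp only [L11, List.forall_mem_cons, List.not_mem_nil, false_imp_iff, implies_true, and_true]
  exact ⟨⟨b220, _, rfl, rc128, h220⟩,
    ⟨b221, _, rfl, rc128, h221⟩,
    ⟨b222, _, rfl, rc128, h222⟩,
    ⟨b223, _, rfl, rc64, h223⟩,
    ⟨b224, _, rfl, rc64, h224⟩,
    ⟨b225, _, rfl, rc64, h225⟩,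
    ⟨b226, _, rfl, rc64, h226⟩,
    ⟨b227, _, rfl, rc128, h227⟩,
    ⟨b228, _, rfl, rc128, h228⟩,
    ⟨b229, _, rfl, rc128, h229⟩,
    ⟨b230, _, rfl, rc64, h230⟩,
    ⟨b231, _, rfl, rc64, h231⟩,
    ⟨b232, _, rfl, rc64, h232⟩,
    ⟨b233, _, rfl, rc64, h233⟩,
    ⟨b234, _, rfl, rc64, h234⟩,
    ⟨b235, _, rfl, rc64, h235⟩,
    ⟨b236, _, rfl, rc64, h236⟩,
    ⟨b237, _, rfl, rc64, h237⟩,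
    ⟨b238, _, rfl, rc64, h238⟩,
    ⟨b239, _, rfl, rc64, h239⟩⟩
/-- boxes -/
def L12 : List Bn := [⟨6, 7, 48, 50, 64⟩, ⟨6, 7, 50, 52, 64⟩, ⟨7, 8, 48, 50, 64⟩, ⟨7, 8, 50, 52, 64⟩, ⟨3, 4, 8, 12, 128⟩, ⟨3, 4, 12, 16, 128⟩, ⟨3, 4, 4, 8, 128⟩, ⟨3, 4, 0, 4, 128⟩, ⟨3, 4, 28, 32, 128⟩, ⟨3, 4, 32, 36, 128⟩, ⟨3, 4, 36, 40, 128⟩, ⟨3, 4, 44, 48, 128⟩, ⟨3, 4, 40, 44, 128⟩, ⟨3, 4, 48, 52, 128⟩, ⟨3, 4, 108, 112, 128⟩, ⟨3, 4, 112, 116, 128⟩, ⟨3, 4, 116, 120, 128⟩, ⟨3, 4, 120, 124, 128⟩, ⟨3, 4, 124, 128, 128⟩, ⟨1, 2, 0, 4, 32⟩]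
theorem hL12 : ∀ b ∈ L12, BoxOK 3 1000 6 1000 g false 6914 false b := by
  simp only [L12, List.forall_mem_cons, List.not_mem_nil, false_imp_iff, implies_true, and_true]
  exact ⟨⟨b240, _, rfl, rc64, h240⟩,
    ⟨b241, _, rfl, rc64, h241⟩,
    ⟨b242, _, rfl, rc64, h242⟩,
    ⟨b243, _, rfl, rc64, h243⟩,
    ⟨b244, _, rfl, rc128, h244⟩,
    ⟨b245, _, rfl, rc128, h245⟩,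
    ⟨b246, _, rfl, rc128, h246⟩,
    ⟨b247, _, rfl, rc128, h247⟩,
    ⟨b248, _, rfl, rc128, h248⟩,
    ⟨b249, _, rfl, rc128, h249⟩,
    ⟨b250, _, rfl, rc128, h250⟩,
    ⟨b251, _, rfl, rc128, h251⟩,
    ⟨b252, _, rfl, rc128, h252⟩,
    ⟨b253, _, rfl, rc128, h253⟩,
    ⟨b254, _, rfl, rc128, h254⟩,
    ⟨b255, _, rfl, rc128, h255⟩,
    ⟨b256, _, rfl, rc128, h256⟩,
    ⟨b257, _, rfl, rc128, h257⟩,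
    ⟨b258, _, rfl, rc128, h258⟩,
    ⟨b259, _, rfl, rc32, h259⟩⟩
/-- boxes -/
def L13 : List Bn := [⟨1, 2, 4, 8, 32⟩, ⟨1, 2, 8, 12, 32⟩, ⟨1, 2, 12, 16, 32⟩, ⟨1, 2, 24, 28, 32⟩, ⟨4, 5, 4, 6, 64⟩, ⟨4, 5, 0, 2, 64⟩, ⟨1, 2, 28, 32, 32⟩, ⟨4, 5, 2, 4, 64⟩, ⟨4, 5, 6, 8, 64⟩, ⟨4, 5, 10, 12, 64⟩, ⟨4, 5, 8, 10, 64⟩, ⟨4, 5, 14, 16, 64⟩, ⟨4, 5, 16, 18, 64⟩, ⟨4, 5, 18, 20, 64⟩, ⟨4, 5, 20, 22, 64⟩, ⟨4, 5, 22, 24, 64⟩, ⟨4, 5, 24, 26, 64⟩, ⟨4, 5, 26, 28, 64⟩, ⟨2, 3, 16, 18, 32⟩, ⟨2, 3, 24, 26, 32⟩]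
theorem hL13 : ∀ b ∈ L13, BoxOK 3 1000 6 1000 g false 6914 false b := by
  simp only [L13, List.forall_mem_cons, List.not_mem_nil, false_imp_iff, implies_true, and_true]
  exact ⟨⟨b260, _, rfl, rc32, h260⟩,
    ⟨b261, _, rfl, rc32, h261⟩,
    ⟨b262, _, rfl, rc32, h262⟩,
    ⟨b263, _, rfl, rc32, h263⟩,
    ⟨b264, _, rfl, rc64, h264⟩,
    ⟨b265, _, rfl, rc64, h265⟩,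
    ⟨b266, _, rfl, rc32, h266⟩,
    ⟨b267, _, rfl, rc64, h267⟩,
    ⟨b268, _, rfl, rc64, h268⟩,
    ⟨b269, _, rfl, rc64, h269⟩,
    ⟨b270, _, rfl, rc64, h270⟩,
    ⟨b271, _, rfl, rc64, h271⟩,
    ⟨b272, _, rfl, rc64, h272⟩,
    ⟨b273, _, rfl, rc64, h273⟩,
    ⟨b274, _, rfl, rc64, h274⟩,
    ⟨b275, _, rfl, rc64, h275⟩,
    ⟨b276, _, rfl, rc64, h276⟩,
    ⟨b277, _, rfl, rc64, h277⟩,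
    ⟨b278, _, rfl, rc32, h278⟩,
    ⟨b279, _, rfl, rc32, h279⟩⟩
/-- boxes -/
def L14 : List Bn := [⟨2, 3, 18, 20, 32⟩, ⟨2, 3, 22, 24, 32⟩, ⟨2, 3, 26, 28, 32⟩, ⟨2, 3, 20, 22, 32⟩, ⟨2, 3, 28, 30, 32⟩, ⟨2, 3, 30, 32, 32⟩, ⟨7, 8, 36, 40, 256⟩, ⟨7, 8, 32, 36, 256⟩, ⟨6, 7, 36, 40, 256⟩, ⟨6, 7, 32, 36, 256⟩, ⟨6, 7, 48, 52, 256⟩, ⟨7, 8, 52, 56, 256⟩, ⟨6, 7, 52, 56, 256⟩, ⟨6, 7, 40, 44, 256⟩, ⟨6, 7, 44, 48, 256⟩, ⟨2, 3, 36, 40, 64⟩, ⟨3, 4, 44, 48, 64⟩, ⟨2, 3, 40, 44, 64⟩, ⟨8, 9, 24, 26, 128⟩, ⟨2, 3, 44, 48, 64⟩]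
theorem hL14 : ∀ b ∈ L14, BoxOK 3 1000 6 1000 g false 6914 false b := by
  simp only [L14, List.forall_mem_cons, List.not_mem_nil, false_imp_iff, implies_true, and_true]
  exact ⟨⟨b280, _, rfl, rc32, h280⟩,
    ⟨b281, _, rfl, rc32, h281⟩,
    ⟨b282, _, rfl, rc32, h282⟩,
    ⟨b283, _, rfl, rc32, h283⟩,
    ⟨b284, _, rfl, rc32, h284⟩,
    ⟨b285, _, rfl, rc32, h285⟩,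
    ⟨b286, _, rfl, rc256, h286⟩,
    ⟨b287, _, rfl, rc256, h287⟩,
    ⟨b288, _, rfl, rc256, h288⟩,
    ⟨b289, _, rfl, rc256, h289⟩,
    ⟨b290, _, rfl, rc256, h290⟩,
    ⟨b291, _, rfl, rc256, h291⟩,
    ⟨b292, _, rfl, rc256, h292⟩,
    ⟨b293, _, rfl, rc256, h293⟩,
    ⟨b294, _, rfl, rc256, h294⟩,
    ⟨b295, _, rfl, rc64, h295⟩,
    ⟨b296, _, rfl, rc64, h296⟩,
    ⟨b297, _, rfl, rc64, h297⟩,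
    ⟨b298, _, rfl, rc128, h298⟩,
    ⟨b299, _, rfl, rc64, h299⟩⟩
/-- boxes -/
def L15 : List Bn := [⟨9, 10, 26, 28, 128⟩, ⟨9, 10, 24, 26, 128⟩, ⟨8, 9, 26, 28, 128⟩, ⟨4, 5, 28, 30, 64⟩, ⟨5, 6, 30, 32, 64⟩, ⟨5, 6, 28, 30, 64⟩, ⟨4, 5, 30, 32, 64⟩, ⟨14, 15, 100, 104, 512⟩, ⟨14, 15, 96, 100, 512⟩, ⟨14, 15, 84, 88, 512⟩, ⟨15, 16, 80, 84, 512⟩, ⟨15, 16, 84, 88, 512⟩, ⟨14, 15, 92, 96, 512⟩, ⟨15, 16, 88, 92, 512⟩, ⟨5, 6, 64, 68, 128⟩, ⟨5, 6, 68, 72, 128⟩, ⟨4, 5, 68, 72, 128⟩, ⟨4, 5, 64, 68, 128⟩, ⟨6, 7, 76, 80, 128⟩, ⟨6, 7, 64, 68, 128⟩]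
theorem hL15 : ∀ b ∈ L15, BoxOK 3 1000 6 1000 g false 6914 false b := by
  simp only [L15, List.forall_mem_cons, List.not_mem_nil, false_imp_iff, implies_true, and_true]
  exact ⟨⟨b300, _, rfl, rc128, h300⟩,
    ⟨b301, _, rfl, rc128, h301⟩,
    ⟨b302, _, rfl, rc128, h302⟩,
    ⟨b303, _, rfl, rc64, h303⟩,
    ⟨b304, _, rfl, rc64, h304⟩,
    ⟨b305, _, rfl, rc64, h305⟩,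
    ⟨b306, _, rfl, rc64, h306⟩,
    ⟨b307, _, rfl, rc512, h307⟩,
    ⟨b308, _, rfl, rc512, h308⟩,
    ⟨b309, _, rfl, rc512, h309⟩,
    ⟨b310, _, rfl, rc512, h310⟩,
    ⟨b311, _, rfl, rc512, h311⟩,
    ⟨b312, _, rfl, rc512, h312⟩,
    ⟨b313, _, rfl, rc512, h313⟩,
    ⟨b314, _, rfl, rc128, h314⟩,
    ⟨b315, _, rfl, rc128, h315⟩,
    ⟨b316, _, rfl, rc128, h316⟩,
    ⟨b317, _, rfl, rc128, h317⟩,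
    ⟨b318, _, rfl, rc128, h318⟩,
    ⟨b319, _, rfl, rc128, h319⟩⟩
/-- boxes -/
def L16 : List Bn := [⟨7, 8, 68, 72, 128⟩, ⟨7, 8, 64, 68, 128⟩, ⟨6, 7, 80, 84, 128⟩, ⟨6, 7, 84, 88, 128⟩, ⟨14, 15, 80, 84, 512⟩, ⟨15, 16, 96, 100, 512⟩, ⟨14, 15, 88, 92, 512⟩, ⟨15, 16, 92, 96, 512⟩, ⟨15, 16, 100, 104, 512⟩, ⟨6, 7, 72, 76, 128⟩, ⟨7, 8, 72, 76, 128⟩, ⟨6, 7, 68, 72, 128⟩, ⟨7, 8, 76, 80, 128⟩, ⟨7, 8, 80, 84, 128⟩, ⟨7, 8, 84, 88, 128⟩]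
theorem hL16 : ∀ b ∈ L16, BoxOK 3 1000 6 1000 g false 6914 false b := by
  simp only [L16, List.forall_mem_cons, List.not_mem_nil, false_imp_iff, implies_true, and_true]
  exact ⟨⟨b320, _, rfl, rc128, h320⟩,
    ⟨b321, _, rfl, rc128, h321⟩,
    ⟨b322, _, rfl, rc128, h322⟩,
    ⟨b323, _, rfl, rc128, h323⟩,
    ⟨b324, _, rfl, rc512, h324⟩,
    ⟨b325, _, rfl, rc512, h325⟩,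
    ⟨b326, _, rfl, rc512, h326⟩,
    ⟨b327, _, rfl, rc512, h327⟩,
    ⟨b328, _, rfl, rc512, h328⟩,
    ⟨b329, _, rfl, rc128, h329⟩,
    ⟨b330, _, rfl, rc128, h330⟩,
    ⟨b331, _, rfl, rc128, h331⟩,
    ⟨b332, _, rfl, rc128, h332⟩,
    ⟨b333, _, rfl, rc128, h333⟩,
    ⟨b334, _, rfl, rc128, h334⟩⟩
/-- intervals -/
def LS : List Bn := [⟨0, 1, 0, 0, 16⟩, ⟨1, 2, 0, 0, 16⟩, ⟨4, 5, 0, 0, 32⟩, ⟨5, 6, 0, 0, 32⟩, ⟨3, 4, 0, 0, 16⟩, ⟨4, 5, 0, 0, 16⟩, ⟨5, 6, 0, 0, 16⟩, ⟨6, 7, 0, 0, 16⟩, ⟨7, 8, 0, 0, 16⟩, ⟨8, 9, 0, 0, 16⟩, ⟨9, 10, 0, 0, 16⟩, ⟨10, 11, 0, 0, 16⟩, ⟨11, 12, 0, 0, 16⟩, ⟨12, 13, 0, 0, 16⟩, ⟨13, 14, 0, 0, 16⟩, ⟨14, 15, 0, 0, 16⟩, ⟨15, 16, 0, 0, 16⟩]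
theorem hLS : ∀ b ∈ LS, SideOK 3 1000 6 1000 g F b := by
  simp only [LS, List.forall_mem_cons, List.not_mem_nil, false_imp_iff, implies_true, and_true]
  exact ⟨⟨s0, 7, rfl, t0⟩,
    ⟨s1, 7, rfl, t1⟩,
    ⟨s2, 7, rfl, t2⟩,
    ⟨s3, 7, rfl, t3⟩,
    ⟨s4, 7, rfl, t4⟩,
    ⟨s5, 7, rfl, t5⟩,
    ⟨s6, 7, rfl, t6⟩,
    ⟨s7, 7, rfl, t7⟩,
    ⟨s8, 7, rfl, t8⟩,
    ⟨s9, 7, rfl, t9⟩,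
    ⟨s10, 7, rfl, t10⟩,
    ⟨s11, 7, rfl, t11⟩,
    ⟨s12, 7, rfl, t12⟩,
    ⟨s13, 7, rfl, t13⟩,
    ⟨s14, 7, rfl, t14⟩,
    ⟨s15, 7, rfl, t15⟩,
    ⟨s16, 7, rfl, t16⟩⟩
theorem chS : chn 0 1 LS = true := by decide +kernel
/-- all boxes -/
def L : List Bn := L0 ++ L1 ++ L2 ++ L3 ++ L4 ++ L5 ++ L6 ++ L7 ++ L8 ++ L9 ++ L10 ++ L11 ++ L12 ++ L13 ++ L14 ++ L15 ++ L16
theorem hL : ∀ b ∈ L, BoxOK 3 1000 6 1000 g false 6914 false b := by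
  intro b hb
  simp only [L, List.mem_append] at hb
  rcases hb with ((((((((((((((((h | h) | h) | h) | h) | h) | h) | h) | h) | h) | h) | h) | h) | h) | h) | h) | h)
  · exact hL0 b h
  · exact hL1 b h
  · exact hL2 b h
  · exact hL3 b h
  · exact hL4 b h
  · exact hL5 b h
  · exact hL6 b h
  · exact hL7 b h
  · exact hL8 b h
  · exact hL9 b h
  · exact hL10 b h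
  · exact hL11 b h
  · exact hL12 b h
  · exact hL13 b h
  · exact hL14 b h
  · exact hL15 b h
  · exact hL16 b h
theorem hq : ∀ b ∈ L, 0 < b.q := by
  have h : (L.all fun b => Nat.ble 1 b.q) = true := by decide +kernel
  intro b hb
  exact Nat.le_of_ble_eq_true (List.all_eq_true.mp h b hb)
theorem hc : covQ 512 L 20 0 512 0 512 = true := by decide +kernel
/-- the certificate of the triangle -/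
theorem cert {T : E → ℝ} {β : ℝ} (h : TrHyp T β) (hβ : inR (rgOf 3 1000 6 1000) β) :
    sF0 (FFd F) T + sF1 (FFd F) T + sF2 (FFd F) T + 24000 * payOf false 6914 / (√2 * g.D) ≤ CN T :=
  tri_cert3 ⟨by norm_num [rgOf], by norm_num [rgOf], by norm_num [rgOf]⟩ hg 512 20 (by norm_num) L hq hc hL F (by norm_num [F]) ev tx ty LS chS hLS h hβ
end Pool.Agent.MTC.S0b
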